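import Mathlib

set_option maxHeartbeats 400000

open Finset Polynomial

namespace Pool.Agent.Results.MP_454c72_al.PrimeGap

/-- The `n`th Pascalian polynomial evaluated at a complex number. -/
noncomputable def P (n : ℕ) (z : ℂ) : ℂ :=
  ∑ k ∈ range (n + 1), (n.choose ((n - k) / 2) : ℂ) * z ^ (n - k)

def S {K : Type*} [CommRing K] (n N : ℕ) (z : K) : K :=
  ∑ j ∈ range N, (n.choose (j / 2) : K) * z ^ j

def Q {K : Type*} [CommRing K] (n N : ℕ) (z : K) : K :=
  ∑ i ∈ range N, (n.choose i : K) * (z ^ 2) ^ i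

theorem P_eq (n : ℕ) (z : ℂ) : P n z = S n (n + 1) z := by
  unfold P S
  exact sum_flip (fun j => (n.choose (j / 2) : ℂ) * z ^ j)

variable {K : Type*} [CommRing K]

theorem S_succ (n N : ℕ) (z : K) : S n (N + 1) z = S n N z + (n.choose (N / 2) : K) * z ^ N :=
  sum_range_succ _ _

theorem S_pascal (n N : ℕ) (z : K) : S (n + 1) (N + 2) z = S n (N + 2) z + z ^ 2 * S n N z := by
  induction N with
  | zero => simp [S, sum_range_succ]
  | succ N ih =>
    have e : (N + 2) / 2 = N / 2 + 1 := by omega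
    rw [show N + 1 + 2 = (N + 2) + 1 from rfl, S_succ (n + 1), S_succ n (N + 2), S_succ n N, ih, e,
      Nat.choose_succ_succ']
    push_cast
    ring

theorem S_rec (n : ℕ) (z : K) : S (n + 1) (n + 2) z =
    (1 + z ^ 2) * S n (n + 1) z + (n.choose (n / 2) : K) * z ^ (n + 1) * (1 - z) := by
  have e : n.choose ((n + 1) / 2) = n.choose (n / 2) := Nat.choose_symm_of_eq_add (by omega)
  rw [S_pascal, show n + 2 = (n + 1) + 1 from rfl, S_succ n (n + 1), e, S_succ n n]
  ring

theorem S_even (n N : ℕ) (z : K) : S n (2 * N) z = (1 + z) * Q n N z := by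
  induction N with
  | zero => simp [S, Q]
  | succ N ih =>
    have e1 : (2 * N + 1) / 2 = N := by omega
    have e2 : (2 * N) / 2 = N := by omega
    rw [show 2 * (N + 1) = (2 * N + 1) + 1 from rfl, S_succ, S_succ, ih, e1, e2, Q, Q,
      sum_range_succ]
    ring

theorem transfer (F : Type*) [Field F] [IsAlgClosed F] (m : ℕ) (z : ℂ) (h : P m z = 0)
    (hc : (m.choose (m / 2) : F) ≠ 0) :
    ∃ w : F, ∀ g : ℤ[X], aeval z g = 0 → aeval w g = 0 := by
  have hz : z ≠ 0 := by
    rintro rfl
    rw [P_eq, S, sum_range_succ'] at h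
    simp at h
  set A : ℤ[X] := X ^ m + ∑ i : Fin m, C (m.choose ((m - i) / 2) : ℤ) * X ^ (i : ℕ) with hA
  have hmon : A.Monic := monic_X_pow_add (degree_sum_fin_lt _)
  have hA' : A = ∑ k ∈ range (m + 1), C (m.choose ((m - k) / 2) : ℤ) * X ^ k := by
    rw [hA, sum_range_succ, Fin.sum_univ_eq_sum_range
      (fun k => C (m.choose ((m - k) / 2) : ℤ) * X ^ k) m]
    simp [add_comm]
  have h0 : aeval z⁻¹ A = 0 := by
    have : aeval z⁻¹ A = P m z * z⁻¹ ^ m := by
      rw [hA', P, map_sum, sum_mul]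
      refine sum_congr rfl fun k hk => ?_
      obtain ⟨t, rfl⟩ := Nat.exists_eq_add_of_le (Nat.lt_succ_iff.1 (mem_range.1 hk))
      simp only [map_mul, map_pow, aeval_X, eq_intCast, map_intCast, map_natCast,
        Int.cast_natCast, Nat.add_sub_cancel_left, pow_add, inv_pow]
      have := pow_ne_zero t hz
      have := pow_ne_zero k hz
      field_simp
    rw [this, h, zero_mul]
  have hint : IsIntegral ℤ z⁻¹ := ⟨A, hmon, h0⟩
  obtain ⟨u, hu⟩ := IsAlgClosed.exists_aeval_eq_zero_of_injective F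
    (RingHom.injective (algebraMap F F)) ((minpoly ℤ z⁻¹).map (Int.castRingHom F)) (by
      rw [(minpoly.monic hint).degree_map]
      exact (minpoly.degree_pos hint).ne')
  have hu' : aeval u (minpoly ℤ z⁻¹) = 0 := by
    rw [← aeval_map_algebraMap F]
    exact hu
  have key : ∀ g : ℤ[X], aeval z⁻¹ g = 0 → aeval u g = 0 := by
    intro g hg
    obtain ⟨q, rfl⟩ := minpoly.isIntegrallyClosed_dvd hint hg
    rw [map_mul, hu', zero_mul]
  have hu0 : u ≠ 0 := by
    rintro rfl
    have := key A h0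
    rw [hA', map_sum, sum_range_succ'] at this
    apply hc
    simpa using this
  refine ⟨u⁻¹, fun g hg => ?_⟩
  letI := invertibleOfNonzero hz
  letI := invertibleOfNonzero (inv_ne_zero hu0)
  have a1 := (eval₂_reverse_eq_zero_iff (algebraMap ℤ ℂ) z g).2 hg
  rw [invOf_eq_inv] at a1
  have a2 := key _ a1
  refine (eval₂_reverse_eq_zero_iff (algebraMap ℤ F) u⁻¹ g).1 ?_
  rw [invOf_eq_inv, inv_inv]
  exact a2

theorem aeval_S {L : Type*} [CommRing L] (n N : ℕ) (z : L) :
    aeval z (S n N (X : ℤ[X])) = S n N z := by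
  simp [S, map_sum]

theorem aeval_Q {L : Type*} [CommRing L] (n N : ℕ) (z : L) :
    aeval z (Q n N (X : ℤ[X])) = Q n N z := by
  simp [Q, map_sum]

theorem core (p m n : ℕ) (hp : p.Prime) (hp2 : p ≠ 2) (h1 : m < p) (h2 : p ≤ n) (h3 : n < 2 * p)
    (z : ℂ) (hz : z ≠ -1) (hn : P n z = 0) (hm : P m z = 0) : False := by
  haveI := Fact.mk hp
  let F := AlgebraicClosure (ZMod p)
  have hne : ∀ a b : ℕ, a < p → b ≤ a → (a.choose b : F) ≠ 0 := by
    intro a b ha hb h
    rw [CharP.cast_eq_zero_iff F p] at h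
    have : p ∣ a.factorial := by
      rw [← Nat.choose_mul_factorial_mul_factorial hb, mul_assoc]
      exact h.mul_right _
    rw [hp.dvd_factorial] at this
    omega
  have h20 : (2 : F) ≠ 0 := by
    intro h
    have : ((2 : ℕ) : F) = 0 := by exact_mod_cast h
    rw [CharP.cast_eq_zero_iff F p] at this
    exact hp2 ((Nat.prime_dvd_prime_iff_eq hp Nat.prime_two).1 this)
  obtain ⟨w, hw⟩ := transfer F m z hm (hne _ _ h1 (Nat.div_le_self _ _))
  have wn : S n (n + 1) w = 0 := by
    rw [← aeval_S]; apply hw; rw [aeval_S, ← P_eq, hn]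
  have wm : S m (m + 1) w = 0 := by
    rw [← aeval_S]; apply hw; rw [aeval_S, ← P_eq, hm]
  obtain ⟨h, hh⟩ := hp.odd_of_ne_two hp2
  have base : S p (p + 1) w = 1 + w := by
    rw [show p + 1 = 2 * (h + 1) by omega, S_even, Q, sum_range_succ', sum_eq_zero]
    · simp
    · intro i hi
      have := mem_range.1 hi
      rw [(CharP.cast_eq_zero_iff F p _).2 (hp.dvd_choose_self (by omega) (by omega)), zero_mul]
  have step : ∀ t, t < p → S (p + t) (p + t + 1) w = (1 + w ^ 2) ^ t * (1 + w) := by
    intro t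
    induction t with
    | zero => intro _; simpa using base
    | succ t ih =>
      intro ht
      rw [show p + (t + 1) + 1 = p + t + 2 from rfl, show p + (t + 1) = p + t + 1 from rfl, S_rec,
        ih (by omega), (CharP.cast_eq_zero_iff F p _).2
          (hp.dvd_choose (by omega) (by omega) (by omega))]
      ring
  obtain ⟨t, rfl⟩ := Nat.exists_eq_add_of_le h2
  rw [step t (by omega)] at wn
  rcases mul_eq_zero.1 wn with a | a
  · have a := eq_zero_of_pow_eq_zero a
    cases m with
    | zero => simp [S] at wm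
    | succ m =>
      rw [show m + 1 + 1 = m + 2 from rfl, S_rec, a, zero_mul, zero_add] at wm
      rcases mul_eq_zero.1 wm with b | b
      · rcases mul_eq_zero.1 b with b | b
        · exact hne _ _ (by omega) (Nat.div_le_self _ _) b
        · have := pow_eq_zero_iff (Nat.succ_ne_zero m) |>.1 b
          rw [this] at a
          simp at a
      · have : w = 1 := (sub_eq_zero.1 b).symm
        rw [this] at a
        exact h20 (by rw [← a]; ring)
  · have w1 : w = -1 := by linear_combination a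
    rcases Nat.even_or_odd' m with ⟨r, rfl | rfl⟩
    · rw [S_succ, S_even, a, zero_mul, zero_add, w1, pow_mul] at wm
      exact hne _ r h1 (by omega) (by simpa using wm)
    · rw [P_eq, show 2 * r + 1 + 1 = 2 * (r + 1) from rfl, S_even] at hm
      have b : Q (2 * r + 1) (r + 1) z = 0 :=
        (mul_eq_zero.1 hm).resolve_left fun c => hz (by linear_combination c)
      have c : Q (2 * r + 1) (r + 1) w = 0 := by
        rw [← aeval_Q]; apply hw; rw [aeval_Q, b]
      have d : Q (2 * r + 1) (r + 1) w = ((4 ^ r : ℕ) : F) := by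
        rw [← Nat.sum_range_choose_halfway r, w1, Q, Nat.cast_sum]
        simp
      rw [c] at d
      have e : ((4 ^ r : ℕ) : F) = 2 ^ (2 * r) := by
        rw [pow_mul]; push_cast; norm_num
      exact pow_ne_zero _ h20 (by rw [← e, ← d])

theorem result (n k : ℕ) (hk : 1 ≤ k) (hkn : k ≤ n)
    (h : k = 1 ∨ n ≤ 2 * k ∨ ∃ p : ℕ, p.Prime ∧ n - k < p ∧ p ≤ n)
    (z : ℂ) (hn : P n z = 0) (hm : P (n - k) z = 0) : z = -1 := by
  by_contra hz
  by_cases m0 : n - k = 0
  · rw [m0] at hm
    simp [P] at hm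
  by_cases k1 : k = 1
  · subst k1
    obtain ⟨m, rfl⟩ : ∃ m, n = m + 1 := ⟨n - 1, by omega⟩
    rw [Nat.add_sub_cancel] at hm
    rw [P_eq] at hn hm
    rw [show m + 1 + 1 = m + 2 from rfl, S_rec, hm, mul_zero, zero_add] at hn
    have c : (m.choose (m / 2) : ℂ) ≠ 0 :=
      Nat.cast_ne_zero.2 (Nat.choose_pos (Nat.div_le_self _ _)).ne'
    rcases mul_eq_zero.1 hn with b | b
    · have := pow_eq_zero_iff (Nat.succ_ne_zero m) |>.1 ((mul_eq_zero.1 b).resolve_left c)
      rw [this, S, sum_range_succ'] at hm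
      simp at hm
    · have : z = 1 := (sub_eq_zero.1 b).symm
      rw [this, S] at hm
      simp only [one_pow, mul_one] at hm
      have e : ∑ j ∈ range (m + 1), m.choose (j / 2) = 0 := by exact_mod_cast hm
      rw [sum_range_succ'] at e
      simp at e
  have h' : ∃ p : ℕ, p.Prime ∧ n - k < p ∧ p ≤ n := by
    rcases h with h | h | h
    · exact absurd h k1
    · obtain ⟨p, a, b, c⟩ := Nat.exists_prime_lt_and_le_two_mul (n - k) m0
      exact ⟨p, a, b, by omega⟩
    · exact h
  obtain ⟨q, q1, q2, q3⟩ := h'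
  have a1 : (Nat.findGreatest Nat.Prime n).Prime := Nat.findGreatest_spec q3 q1
  have a2 : q ≤ Nat.findGreatest Nat.Prime n := Nat.le_findGreatest q3 q1
  have a3 : Nat.findGreatest Nat.Prime n ≤ n := Nat.findGreatest_le n
  obtain ⟨r, r1, r2, r3⟩ := Nat.exists_prime_lt_and_le_two_mul _ a1.ne_zero
  have a4 : n < r := by
    by_contra c
    have := Nat.le_findGreatest (not_lt.1 c) r1
    omega
  refine core _ (n - k) n a1 ?_ (by omega) a3 (by omega) z hz hn hm
  intro c
  have : 3 ≤ n := by omega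
  have := Nat.le_findGreatest this Nat.prime_three
  omega

end Pool.Agent.Results.MP_454c72_al.PrimeGap
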